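import Pool.Agent.helper36.PP.SpecD

/-! # Project pp, module PHW: Phase 2 as a black box -/

set_option autoImplicit false

open Complex Metric Set Filter Topology MeasureTheory MPS

noncomputable section

namespace PPS

theorem PHW (hNGA : NGA_stmt) (hNGFA : NGFA_stmt) (hND : MPS.ND_stmt)
    (hPH1 : PH1_stmt) (hPH2 : PH2_stmt) : PHW_stmt := by
  intro n ρ₁ ra hn hρpos h16 hra
  obtain ⟨δ, hδ⟩ : ∃ δ, δ = ρ₁ / 64 := ⟨_, rfl⟩
  have hδpos : 0 < δ := by rw [hδ]; positivity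
  have hδ20 : δ ≤ 1 / 20 := by
    rw [hδ]
    linarith
  obtain ⟨R₁, hR₁4, hR₁⟩ := hNGA δ ra hδpos hra
  obtain ⟨R₂, hR₂4, hR₂⟩ := hNGFA (16 * ρ₁) ra (by positivity) h16 hra
  have hcn : (0 : ℝ) < cn n := by
    unfold cn
    positivity
  refine ⟨max R₁ R₂, (hra.trans hR₁4).trans_le (le_max_left _ _), min (δ ^ 3 / cn n) (ρ₁ ^ 2 / cn n),
    lt_min (by positivity) (by positivity), ?_⟩
  intro k _ f b g ψ R ε su hR hε y χ hnat hext
  have hRR₁ : R₁ ≤ R := (le_max_left _ _).trans hR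
  have hRR₂ : R₂ ≤ R := (le_max_right _ _).trans hR
  have hε1 := hε.trans (min_le_left _ _)
  have hε2 := hε.trans (min_le_right _ _)
  have hmp0 : MapsTo (ψ 0) (ball 0 (Real.exp (-δ))) (ball 0 R) := by
    intro u hu
    rw [mem_ball_zero_iff] at hu ⊢
    exact (hR₁ k b g 0 (ψ 0) su.hk su.cyc.inj su.hra (su.mx 0).pn u hu.le).trans_le hRR₁
  obtain ⟨G1, hG1⟩ := hPH1 n k f b g ψ ra R ε δ su hδpos hδ20 hmp0 hε1
  have hmp1 : MapsTo χ (ball (ctr y ρ₁) (9 * ρ₁ / 8)) (ball 0 R) := by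
    intro w hw
    rw [mem_ball_zero_iff]
    refine (hR₂ k b g 0 (ψ 0) χ y su.hk su.cyc.inj su.hra (su.mx 0).pn hnat hext w ?_).trans_le hRR₂
    rw [mem_ball, dist_eq_norm] at hw ⊢
    have e : w - (y : ℂ) * I = (w - ctr y ρ₁) + (-(ρ₁ / 4 : ℝ) : ℂ) := by
      unfold ctr
      push_cast
      ring
    have h1 : ‖(-(ρ₁ / 4 : ℝ) : ℂ)‖ = ρ₁ / 4 := by
      rw [norm_neg, Complex.norm_real, Real.norm_of_nonneg (by positivity)]
    rw [e]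
    refine (norm_add_le _ _).trans_lt ?_
    rw [h1]
    linarith
  obtain ⟨ps, hps⟩ : ∃ ps : ℕ, ∀ p : ℕ, 1 ≤ p → p < k →
      χ ((y : ℂ) * I + 6 * ρ₁) ∈ ψ (-(p : ZMod k)) '' ball 0 1 → p = ps := by
    by_cases hex : ∃ p : ℕ, 1 ≤ p ∧ p < k ∧
        χ ((y : ℂ) * I + 6 * ρ₁) ∈ ψ (-(p : ZMod k)) '' ball 0 1
    · obtain ⟨ps, hp1, hp2, hp3⟩ := hex
      refine ⟨ps, fun p hq1 hq2 hq3 => ?_⟩
      by_contra hne
      have hne' : (-(p : ZMod k)) ≠ -(ps : ZMod k) := by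
        intro h
        rw [neg_inj, ZMod.natCast_eq_natCast_iff'] at h
        rw [Nat.mod_eq_of_lt hq2, Nat.mod_eq_of_lt hp2] at h
        exact hne h
      have hd := hND k b g _ _ (ψ (-(p : ZMod k))) (ψ (-(ps : ZMod k))) su.cyc.inj hne'
        (su.mx _) (su.mx _)
      exact Set.disjoint_left.mp hd hq3 hp3
    · exact ⟨0, fun p hq1 hq2 hq3 => absurd ⟨p, hq1, hq2, hq3⟩ hex⟩
  have su2 : SU2 n k f b g ψ ra R ε y ρ₁ χ G1 ps := by
    refine ⟨su, hρpos, h16, hnat, hext, ?_, hmp1, ?_, hps⟩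
    · rw [← hδ]
      exact hmp0
    · rw [← hδ]
      exact hG1
  obtain ⟨r, G, hr, hH2⟩ := hPH2 n k f b g ψ ra R ε y ρ₁ χ G1 ps su2 hε2
  exact ⟨ps, G1, r, G, hr, hH2⟩

end PPS
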