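import Pool.Agent.helper25.PP.Spec

set_option autoImplicit false

namespace PP

open Finset SimpleGraph CT

section
variable {V : Type} [Fintype V] [DecidableEq V]

theorem FC_bit (G : SimpleGraph V) : bit G = 0 ∨ bit G = 1 := by
  unfold bit
  split_ifs
  · right; rfl
  · left; rfl

open Classical in
/-- The admissible pairs `(q, p)` for `v`. -/
noncomputable def FC_good (G : SimpleGraph V) (v : V) : Finset (V × V) :=
  (inn G univ).filter fun x => x.1 ∉ insert v (nb G v) ∧
    x.2 ∉ nb G v ∪ (nb G v).biUnion (nb G)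

open Classical in
/-- The switchings from `bit = 1` to `bit = 0`. -/
noncomputable def FC_A (G : SimpleGraph V) : Finset (V × V × V × V) :=
  univ.filter fun x => Ok G x.1 x.2.1 x.2.2.1 x.2.2.2 ∧
    bit (sw G x.1 x.2.1 x.2.2.1 x.2.2.2) = 0

open Classical in
/-- The reversed switchings. -/
noncomputable def FC_B (G : SimpleGraph V) : Finset (V × V × V × V) :=
  univ.filter fun x => G.Adj x.1 x.2.1 ∧ G.Adj x.2.2.1 x.2.2.2

theorem FC_good_card (h3 : NB4_stmt) (G : SimpleGraph V) (hG : FourRegular G) (v : V) :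
    4 * Fintype.card V - 100 ≤ (FC_good G v).card := by
  classical
  obtain ⟨h4, h5⟩ := h3 V G
  obtain ⟨h6, h7, h8⟩ := h5 hG
  have hnb := h4.1 hG
  set X : Finset V := insert v (nb G v) with hX
  set Y : Finset V := nb G v ∪ (nb G v).biUnion (nb G) with hY
  have hXc : X.card ≤ 5 := by
    refine (card_insert_le _ _).trans ?_
    rw [hnb]
  have hYc : Y.card ≤ 20 := by
    refine (card_union_le _ _).trans ?_
    have : ((nb G v).biUnion (nb G)).card ≤ (nb G v).card * 4 :=
      card_biUnion_le_card_mul _ _ _ (fun i _ => (hnb i).le)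
    rw [hnb] at this ⊢
    omega
  have e1 := h7 X
  have e2 := h8 Y
  have hsub : inn G univ ⊆ FC_good G v ∪
      (((inn G univ).filter fun p => p.1 ∈ X) ∪ ((inn G univ).filter fun p => p.2 ∈ Y)) := by
    intro x hx
    by_cases hx1 : x.1 ∈ X
    · exact mem_union_right _ (mem_union_left _ (mem_filter.2 ⟨hx, hx1⟩))
    by_cases hx2 : x.2 ∈ Y
    · exact mem_union_right _ (mem_union_right _ (mem_filter.2 ⟨hx, hx2⟩))
    · refine mem_union_left _ ?_
      unfold FC_good
      exact mem_filter.2 ⟨hx, hx1, hx2⟩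
  have hc := card_le_card hsub
  have hc1 := card_union_le (FC_good G v)
    (((inn G univ).filter fun p => p.1 ∈ X) ∪ ((inn G univ).filter fun p => p.2 ∈ Y))
  have hc2 := card_union_le ((inn G univ).filter fun p => p.1 ∈ X)
    ((inn G univ).filter fun p => p.2 ∈ Y)
  have e1' : ((inn G univ).filter fun p => p.1 ∈ X).card = 4 * X.card := by
    convert e1
  have e2' : ((inn G univ).filter fun p => p.2 ∈ Y).card = 4 * Y.card := by
    convert e2
  omega

theorem FC_ex (h1 : FV2_stmt) (h3 : NB4_stmt) (h4 : 6 ≤ Fintype.card V) (G : SimpleGraph V)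
    (hG : FourRegular G) (hb : bit G = 1) (v : V) (x : V × V) (hx : x ∈ FC_good G v) :
    ∃ i, (v, i, x.1, x.2) ∈ FC_A G := by
  classical
  unfold FC_good at hx
  obtain ⟨hx1, hx2, hx3⟩ := mem_filter.1 hx
  rw [mem_ein] at hx1
  have hadj := hx1.2
  rw [mem_insert, not_or] at hx2
  rw [mem_union, not_or, mem_biUnion] at hx3
  have hvq : v ≠ x.1 := fun h => hx2.1 h.symm
  have hnvq : ¬ G.Adj v x.1 := fun h => hx2.2 ((mem_nb G v x.1).2 h)
  have hi : ∀ i, G.Adj v i → i ≠ x.2 ∧ ¬ G.Adj i x.2 := by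
    intro i hvi
    refine ⟨fun h => hx3.1 ((mem_nb G v x.2).2 (h ▸ hvi)), fun h => hx3.2 ?_⟩
    exact ⟨i, (mem_nb G v i).2 hvi, (mem_nb G i x.2).2 h⟩
  have hev := h1 V G v x.1 x.2 hG h4 hadj hvq hnvq hi
  by_contra hcon
  push Not at hcon
  have hall : ∀ i ∈ nb G v, bit (sw G v i x.1 x.2) = 1 := by
    intro i hin
    have hvi := (mem_nb G v i).1 hin
    rcases FC_bit (sw G v i x.1 x.2) with h | h
    · exfalso
      apply hcon i
      unfold FC_A
      refine mem_filter.2 ⟨mem_univ _, ?_, h⟩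
      exact ⟨hvi, hadj, hvq, (hi i hvi).1, hnvq, (hi i hvi).2⟩
    · exact h
  have hsum : ∑ i ∈ nb G v, bit (sw G v i x.1 x.2) = 4 := by
    rw [sum_congr rfl hall, sum_const, ((h3 V G).1.1 hG) v]
    rfl
  have hev2 : Even (bit G + ∑ i ∈ nb G v, bit (sw G v i x.1 x.2)) := by
    convert hev
  rw [hsum, hb] at hev2
  revert hev2
  decide

theorem FC_A_card (h1 : FV2_stmt) (h3 : NB4_stmt) (h4 : 6 ≤ Fintype.card V) (G : SimpleGraph V)
    (hG : FourRegular G) (hb : bit G = 1) :
    Fintype.card V * (4 * Fintype.card V - 100) ≤ (FC_A G).card := by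
  classical
  have hex := FC_ex h1 h3 h4 G hG hb
  choose! f hf using hex
  have hs : Fintype.card V * (4 * Fintype.card V - 100) ≤
      ((univ : Finset V).sigma fun v => FC_good G v).card := by
    rw [card_sigma]
    have := card_nsmul_le_sum (univ : Finset V) (fun v => (FC_good G v).card)
      (4 * Fintype.card V - 100) (fun v _ => FC_good_card h3 G hG v)
    simpa using this
  refine hs.trans (card_le_card_of_injOn (fun y => (y.1, f y.1 y.2, y.2.1, y.2.2)) ?_ ?_)
  · intro y hy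
    exact hf y.1 y.2 (mem_sigma.1 hy).2
  · rintro ⟨v, x⟩ _ ⟨v', x'⟩ _ h
    simp only [Prod.mk.injEq] at h
    obtain ⟨rfl, -, h2, h3⟩ := h
    have : x = x' := Prod.ext h2 h3
    rw [this]

theorem FC_B_card (h3 : NB4_stmt) (G : SimpleGraph V) (hG : FourRegular G) :
    (FC_B G).card ≤ 16 * Fintype.card V ^ 2 := by
  classical
  obtain ⟨h6, -, -⟩ := (h3 V G).2 hG
  have : (FC_B G).card ≤ ((inn G univ) ×ˢ (inn G univ)).card := by
    refine card_le_card_of_injOn (fun x => ((x.1, x.2.1), (x.2.2.1, x.2.2.2))) ?_ ?_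
    · intro x hx
      unfold FC_B at hx
      have hx' := (mem_filter.1 hx).2
      refine mem_product.2 ⟨?_, ?_⟩
      · exact (mem_ein G univ _).2 ⟨⟨mem_univ _, mem_univ _⟩, hx'.1⟩
      · exact (mem_ein G univ _).2 ⟨⟨mem_univ _, mem_univ _⟩, hx'.2⟩
    · rintro ⟨a, b, c, d⟩ _ ⟨a', b', c', d'⟩ _ h
      simp only [Prod.mk.injEq] at h
      obtain ⟨⟨rfl, rfl⟩, rfl, rfl⟩ := h
      rfl
  refine this.trans ?_
  rw [card_product, h6]
  apply le_of_eq
  ring

end

theorem FC (h1 : FV2_stmt) (h2 : DBL_stmt) (h3 : NB4_stmt) : FC_stmt := by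
  intro V _ _ h4
  classical
  refine h2 V (fun G => bit G = 1) (fun G => bit G = 0) FC_A FC_B _ _ ?_ ?_ ?_
  · intro G hG hb
    exact FC_A_card h1 h3 h4 G hG hb
  · intro G hG _
    exact FC_B_card h3 G hG
  · intro G hG _ a b c d h
    unfold FC_A at h
    obtain ⟨-, hok, h0⟩ := mem_filter.1 h
    refine ⟨hok, h0, ?_⟩
    obtain ⟨-, -, hac, hbd, -, -⟩ := hok
    unfold FC_B
    refine mem_filter.2 ⟨mem_univ _, ?_, ?_⟩
    · exact Or.inr ⟨hac, Or.inl rfl⟩
    · exact Or.inr ⟨hbd, Or.inr rfl⟩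

end PP
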