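import Pool.Agent.helper57.PP.Spec

/-! Row DC of project PP (MP_974a61_co): a part of a surface without boundary is everything. -/

set_option autoImplicit false

namespace Pool.Agent.helper57.PP

open Finset

theorem DC (h1 : SC_stmt) : DC_stmt := by
  intro W _ F hF hconn G hGF hbd
  rcases G.eq_empty_or_nonempty with h0 | hne
  · exact Or.inl h0
  right
  have hstar : StarConn F := h1 W F hF
  have hvert : ∀ v ∈ vs G, cof G {v} = cof F {v} := by
    intro v hv
    obtain ⟨t, ht, hvt⟩ := mem_vs.1 hv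
    refine hstar v (cof G {v}) (cof_mono hGF _) ⟨t, mem_cof.2 ⟨ht, by simpa using hvt⟩⟩ ?_
    intro e he hve
    rw [cof_cof G hve]
    have hev : ¬ Odd (cof G e).card := by
      intro hodd
      have : e ∈ bd G := mem_bd.2 ⟨he, hodd⟩
      rw [hbd] at this
      simp at this
    have hsub : cof G e ⊆ cof F e := cof_mono hGF e
    by_cases heF : e ∈ edges F
    · have h2 : (cof F e).card = 2 := hF.two e heF
      have h3 : (cof G e).card ≤ 2 := h2 ▸ Finset.card_le_card hsub
      have h4 : (cof G e).card = 0 ∨ (cof G e).card = 1 ∨ (cof G e).card = 2 := by omega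
      rcases h4 with h4 | h4 | h4
      · exact Or.inl (Finset.card_eq_zero.1 h4)
      · exact absurd (h4 ▸ odd_one) hev
      · exact Or.inr (Finset.eq_of_subset_of_card_le hsub (by rw [h2, h4]))
    · left
      rw [edges_iff_cof_nonempty he, Finset.not_nonempty_iff_eq_empty] at heF
      rw [heF] at hsub
      exact Finset.subset_empty.1 hsub
  have hadj : ∀ x y : W, (gr (edges F)).Adj x y → x ∈ vs G → y ∈ vs G := by
    intro x y hxy hx
    obtain ⟨-, t, ht, hsub⟩ := mem_edges.1 hxy.2
    have hxt : x ∈ t := hsub (by simp)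
    have hyt : y ∈ t := hsub (by simp)
    have h5 : t ∈ cof G {x} := by
      rw [hvert x hx]
      exact mem_cof.2 ⟨ht, by simpa using hxt⟩
    exact mem_vs.2 ⟨t, (mem_cof.1 h5).1, hyt⟩
  obtain ⟨t0, ht0⟩ := hne
  have ht0c := hF.card3 t0 (hGF ht0)
  obtain ⟨v0, hv0⟩ : t0.Nonempty := by
    rw [← Finset.card_pos, ht0c]
    norm_num
  have hv0G : v0 ∈ vs G := mem_vs.2 ⟨t0, ht0, hv0⟩
  have hwalk : ∀ (x y : W), (gr (edges F)).Walk x y → x ∈ vs G → y ∈ vs G := by
    intro x y p
    induction p with
    | nil => exact id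
    | cons h _ ih => exact fun hx => ih (hadj _ _ h hx)
  have hall : ∀ w : W, w ∈ vs G := by
    intro w
    obtain ⟨p⟩ := hconn.preconnected v0 w
    exact hwalk v0 w p hv0G
  refine Finset.Subset.antisymm hGF fun t ht => ?_
  obtain ⟨v, hv⟩ : t.Nonempty := by
    rw [← Finset.card_pos, hF.card3 t ht]
    norm_num
  have h6 : t ∈ cof G {v} := by
    rw [hvert v (hall v)]
    exact mem_cof.2 ⟨ht, by simpa using hv⟩
  exact (mem_cof.1 h6).1

end Pool.Agent.helper57.PP
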